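import Pool.Agent.N637.SLX.Stm2

/-!
# Project SLX (helper637): the additive quadratic characters

The character `ra q` of the integers prime to `q` (`1 mod 4` if `q = 2`), its reciprocity and its relation to
the symbols `sy` and to the squares in `ℚ_q`. (The multiplicative form is in `Pool.Agent.N875.X15.Trans`.)
-/

set_option autoImplicit false

open scoped Classical

namespace Pool.Agent.N362.SLX

open Finset
open Pool.Agent.N875.X15 (close sq_cancel sq_of_mod8)
open Pool.Agent.N916.GB (Po Vt sy)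
open Pool.Agent.Y703.CQ (nr)
open Pool.Agent.N973.ND (uu)
open Pool.Agent.N637.SLX (pdr)

section loc

variable {p : ℕ} [hp : Fact p.Prime]

/-- squares in `ℚ_[p]` from squares modulo `p` -/
lemma sq_of_zmod (hp2 : p ≠ 2) {n : ℤ} (hn : ¬ (p : ℤ) ∣ n) (h : IsSquare ((n : ℤ) : ZMod p)) :
    IsSquare (n : ℚ_[p]) := by
  obtain ⟨t, ht⟩ := h
  have ht0 : t ≠ 0 := by
    rintro rfl
    rw [mul_zero] at ht
    exact hn ((ZMod.intCast_zmod_eq_zero_iff_dvd n p).1 ht)
  set s : ℤ := (t.val : ℤ) with hs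
  have hst : ((s : ℤ) : ZMod p) = t := by
    rw [hs]
    simp
  have hns : ¬ (p : ℤ) ∣ s := by
    intro h1
    apply ht0
    rw [← hst]
    exact (ZMod.intCast_zmod_eq_zero_iff_dvd s p).2 h1
  have hdv : (p : ℤ) ∣ n - s * s := by
    apply (ZMod.intCast_zmod_eq_zero_iff_dvd (n - s * s) p).1
    push_cast at ht hst ⊢
    rw [ht, hst, sub_self]
  have hs0 : ((s * s : ℤ) : ℚ_[p]) ≠ 0 := by
    have h1 : s ≠ 0 := by rintro h1; rw [h1] at hns; exact hns (dvd_zero _)
    exact_mod_cast mul_ne_zero h1 h1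
  have h1 : ‖((n : ℤ) : ℚ_[p]) - ((s * s : ℤ) : ℚ_[p])‖ < ‖((s * s : ℤ) : ℚ_[p])‖ := by
    have e1 : ‖((s * s : ℤ) : ℚ_[p])‖ = 1 := by
      refine le_antisymm (Padic.norm_int_le_one _) ?_
      rw [← not_lt, Padic.norm_intCast_lt_one_iff]
      intro h2
      rcases (Nat.prime_iff_prime_int.1 hp.out).dvd_or_dvd h2 with h3 | h3 <;> exact hns h3
    rw [e1, ← Int.cast_sub, Padic.norm_intCast_lt_one_iff]
    exact hdv
  have h2 := (close hp2 hs0 h1).1
  rw [mul_comm] at h2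
  refine sq_cancel hs0 ⟨(s : ℚ_[p]), by push_cast; ring⟩ h2

lemma jac_of_sq {n : ℤ} (hn : ¬ (p : ℤ) ∣ n) (h : IsSquare (n : ℚ_[p])) : jacobiSym n p = 1 := by
  rw [← jacobiSym.legendreSym.to_jacobiSym]
  rw [legendreSym.eq_one_iff p (fun h0 => hn ((ZMod.intCast_zmod_eq_zero_iff_dvd n p).1 h0))]
  exact Pool.Agent.N637.P21.zmod_sq h

end loc

/-- reciprocity for numbers `≡ 1 mod 4` -/
lemma recip {d : ℤ} (hd : d % 4 = 1) {p : ℕ} (hp : Odd p) : jacobiSym d p = jacobiSym p d.natAbs := by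
  rcases le_or_gt 0 d with h | h
  · have h1 : (d.natAbs : ℤ) = d := Int.natAbs_of_nonneg h
    rw [← h1, Int.natAbs_natCast]
    exact jacobiSym.quadratic_reciprocity_one_mod_four (by omega) hp
  · have h1 : (d.natAbs : ℤ) = -d := by
      rw [Int.natCast_natAbs, abs_of_neg h]
    have h3 : d = -1 * (d.natAbs : ℤ) := by rw [h1]; ring
    have h4 : d.natAbs % 4 = 3 := by omega
    conv_lhs => rw [h3]
    rw [jacobiSym.mul_left, jacobiSym.at_neg_one hp]
    have h5 : p % 4 = 1 ∨ p % 4 = 3 := by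
      have := Nat.odd_iff.1 hp
      omega
    rcases h5 with h5 | h5
    · rw [ZMod.χ₄_nat_one_mod_four h5, one_mul]
      exact (jacobiSym.quadratic_reciprocity_one_mod_four h5 (Nat.odd_iff.2 (by omega))).symm
    · rw [ZMod.χ₄_nat_three_mod_four h5,
        jacobiSym.quadratic_reciprocity_three_mod_four h4 h5]
      ring

/-! ### the characters -/

/-- the quadratic character at `q` of the numbers prime to `q` (which are `1 mod 4` if `q = 2`) -/
def ch (q : ℕ) (a : ℤ) : ℤ := if q = 2 then (if a % 8 = 1 then 1 else -1) else jacobiSym a q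

/-- the domain of the character -/
def Gd (q : ℕ) (a : ℤ) : Prop := if q = 2 then a % 4 = 1 else ¬ (q : ℤ) ∣ a

lemma ch_two (a : ℤ) : ch 2 a = if a % 8 = 1 then 1 else -1 := by
  unfold ch
  rw [if_pos rfl]

lemma ch_odd {q : ℕ} (hq : q ≠ 2) (a : ℤ) : ch q a = jacobiSym a q := by
  unfold ch
  rw [if_neg hq]

lemma gd_two (a : ℤ) : Gd 2 a ↔ a % 4 = 1 := by
  unfold Gd
  rw [if_pos rfl]

lemma gd_odd {q : ℕ} (hq : q ≠ 2) (a : ℤ) : Gd q a ↔ ¬ (q : ℤ) ∣ a := by
  unfold Gd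
  rw [if_neg hq]

lemma ch_mul {q : ℕ} {a b : ℤ} (ha : Gd q a) (hb : Gd q b) : ch q (a * b) = ch q a * ch q b := by
  by_cases h : q = 2
  · subst h
    rw [gd_two] at ha hb
    rw [ch_two, ch_two, ch_two]
    have e1 : a % 8 = 1 ∨ a % 8 = 5 := by omega
    have e2 : b % 8 = 1 ∨ b % 8 = 5 := by omega
    have e3 := Int.mul_emod a b 8
    rcases e1 with e1 | e1 <;> rcases e2 with e2 | e2 <;> rw [e1, e2] at e3 <;> rw [e3, e1, e2] <;>
      norm_num
  · rw [ch_odd h, ch_odd h, ch_odd h]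
    exact jacobiSym.mul_left _ _ _

lemma gd_one {q : ℕ} (hq : q.Prime) : Gd q 1 := by
  by_cases h : q = 2
  · subst h
    rw [gd_two]
    norm_num
  · rw [gd_odd h]
    intro h1
    have h2 : q ∣ 1 := by exact_mod_cast h1
    exact hq.one_lt.ne' (Nat.dvd_one.1 h2)

lemma gd_mul {q : ℕ} (hq : q.Prime) {a b : ℤ} (ha : Gd q a) (hb : Gd q b) : Gd q (a * b) := by
  by_cases h : q = 2
  · subst h
    rw [gd_two] at ha hb ⊢
    rw [Int.mul_emod, ha, hb]
    norm_num
  · rw [gd_odd h] at ha hb ⊢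
    intro hab
    rcases (Nat.prime_iff_prime_int.1 hq).dvd_or_dvd hab with h1 | h1
    · exact ha h1
    · exact hb h1

lemma ch_pm {q : ℕ} (hq : q.Prime) {a : ℤ} (ha : Gd q a) : ch q a = 1 ∨ ch q a = -1 := by
  by_cases h : q = 2
  · subst h
    rw [ch_two]
    split_ifs
    · exact Or.inl rfl
    · exact Or.inr rfl
  · rw [gd_odd h] at ha
    rw [ch_odd h]
    refine jacobiSym.eq_one_or_neg_one ?_
    rw [← Int.isCoprime_iff_gcd_eq_one]
    exact ((Nat.prime_iff_prime_int.1 hq).coprime_iff_not_dvd.2 ha).symm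

/-- integers congruent to `1` modulo `8` -/
lemma sq_int {a : ℤ} (h : a % 8 = 1) : IsSquare (a : ℚ_[2]) := by
  have h1 := sq_of_mod8 (a : ℤ_[2]) (by
    rw [map_intCast]
    have e : a = 8 * (a / 8) + 1 := by omega
    rw [e]
    push_cast
    have : (8 : ZMod (2 ^ 3)) = 0 := by decide
    rw [this]
    ring)
  simpa using h1

lemma ch_iff {q : ℕ} [hq : Fact q.Prime] {a : ℤ} (ha : Gd q a) : ch q a = 1 ↔ IsSquare (a : ℚ_[q]) := by
  by_cases h : q = 2
  · subst h
    rw [gd_two] at ha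
    rw [ch_two]
    constructor
    · intro h1
      split_ifs at h1 with h2
      exact sq_int h2
    · intro h1
      rw [if_pos (Pool.Agent.Y667.RP.mod_of_sq (by omega) h1)]
  · rw [gd_odd h] at ha
    rw [ch_odd h]
    constructor
    · intro h1
      refine sq_of_zmod h ha ?_
      rw [← jacobiSym.legendreSym.to_jacobiSym] at h1
      exact (legendreSym.eq_one_iff q (fun h0 => ha ((ZMod.intCast_zmod_eq_zero_iff_dvd a q).1 h0))).1 h1
    · exact jac_of_sq ha

lemma gd_prod {ι : Type} {q : ℕ} (hq : q.Prime) (s : Finset ι) (f : ι → ℤ)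
    (h : ∀ p ∈ s, Gd q (f p)) : Gd q (∏ p ∈ s, f p) := by
  classical
  induction s using Finset.induction_on with
  | empty => rw [Finset.prod_empty]; exact gd_one hq
  | insert a s ha ih =>
    rw [Finset.prod_insert ha]
    exact gd_mul hq (h a (Finset.mem_insert_self _ _))
      (ih fun p hp => h p (Finset.mem_insert_of_mem hp))

/-- the additive form of the character -/
def ra (q : ℕ) (a : ℤ) : ZMod 2 := if ch q a = 1 then 0 else 1

lemma ra_mul {q : ℕ} (hq : q.Prime) {a b : ℤ} (ha : Gd q a) (hb : Gd q b) :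
    ra q (a * b) = ra q a + ra q b := by
  unfold ra
  rw [ch_mul ha hb]
  rcases ch_pm hq ha with h | h <;> rcases ch_pm hq hb with h' | h' <;> rw [h, h'] <;> decide

lemma ra_one {q : ℕ} : ra q 1 = 0 := by
  unfold ra
  rw [if_pos]
  unfold ch
  split_ifs <;> simp_all

lemma ra_prod {ι : Type} {q : ℕ} (hq : q.Prime) (s : Finset ι) (f : ι → ℤ)
    (h : ∀ p ∈ s, Gd q (f p)) : ∑ p ∈ s, ra q (f p) = ra q (∏ p ∈ s, f p) := by
  classical
  induction s using Finset.induction_on with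
  | empty => rw [Finset.sum_empty, Finset.prod_empty, ra_one]
  | insert a s ha ih =>
    rw [Finset.sum_insert ha, Finset.prod_insert ha, ih fun p hp => h p (Finset.mem_insert_of_mem hp),
      ra_mul hq (h a (Finset.mem_insert_self _ _))
        (gd_prod hq s f fun p hp => h p (Finset.mem_insert_of_mem hp))]

lemma ra_iff {q : ℕ} [hq : Fact q.Prime] {a : ℤ} (ha : Gd q a) : ra q a = 0 ↔ IsSquare (a : ℚ_[q]) := by
  rw [← ch_iff ha]
  unfold ra
  split_ifs with h <;> simp [h]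

/-! ### reciprocity -/

/-- the prime discriminants -/
def sgp (p : ℕ) : ℤ := if p % 4 = 1 then p else -p

lemma sgp_mod {p : ℕ} (hp : p.Prime) (h2 : p ≠ 2) : sgp p % 4 = 1 := by
  unfold sgp
  have := hp.eq_two_or_odd
  split_ifs <;> omega

lemma sgp_abs (p : ℕ) : (sgp p).natAbs = p := by
  unfold sgp
  split_ifs
  · exact Int.natAbs_natCast p
  · rw [Int.natAbs_neg, Int.natAbs_natCast]

lemma dvd_sgp {p q : ℕ} : (q : ℤ) ∣ sgp p ↔ q ∣ p := by
  rw [Int.natCast_dvd, sgp_abs]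

/-- **reciprocity** -/
theorem recip_ch {p q : ℕ} (hp : p.Prime) (hq : q.Prime) (hq2 : q ≠ 2) :
    ch p (sgp q) = jacobiSym p q := by
  have hqo : q % 2 = 1 := hq.eq_two_or_odd.resolve_left hq2
  by_cases h : p = 2
  · subst h
    rw [ch_two]
    have e : jacobiSym ((2 : ℕ) : ℤ) q = if q % 8 = 1 ∨ q % 8 = 7 then 1 else -1 := by
      have e1 : jacobiSym ((2 : ℕ) : ℤ) q = jacobiSym 2 q := by norm_num
      have e2 : ¬ q % 2 = 0 := by omega
      rw [e1, jacobiSym.at_two (Nat.odd_iff.2 hqo), ZMod.χ₈_nat_eq_if_mod_eight, if_neg e2]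
    rw [e]
    unfold sgp
    split_ifs <;> first | rfl | omega
  · rw [ch_odd h, recip (sgp_mod hq hq2) (hp.odd_of_ne_two h), sgp_abs]

/-- **reciprocity**, additive form -/
theorem recip_ra {p q : ℕ} (hp : p.Prime) (hq : q.Prime) (hq2 : q ≠ 2) : ra p (sgp q) = ra q p := by
  unfold ra
  rw [recip_ch hp hq hq2, ch_odd hq2]

lemma not_dvd_prime {p q : ℕ} (hp : p.Prime) (hq : q.Prime) (hpq : p ≠ q) : ¬ (q : ℤ) ∣ (p : ℤ) := by
  intro h3
  exact hpq ((Nat.prime_dvd_prime_iff_eq hq hp).1 (by exact_mod_cast h3)).symm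

/-- the symbol `nr` -/
lemma nr_eq {p n : ℕ} (hp : p.Prime) (hp2 : p ≠ 2) (hn : ¬ (p : ℤ) ∣ (n : ℤ)) : nr p n = ra p (n : ℤ) := by
  have : Fact p.Prime := ⟨hp⟩
  unfold nr ra
  rw [ch_odd hp2, ← jacobiSym.legendreSym.to_jacobiSym]
  have h := legendreSym.eq_one_iff p (a := (n : ℤ))
    (fun h0 => hn ((ZMod.intCast_zmod_eq_zero_iff_dvd (n : ℤ) p).1 h0))
  have h' : IsSquare (((n : ℤ) : ℤ) : ZMod p) ↔ IsSquare ((n : ℕ) : ZMod p) := by
    rw [Int.cast_natCast]
  rw [h'] at h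
  by_cases c : IsSquare ((n : ℕ) : ZMod p)
  · rw [if_pos c, if_pos (h.2 c)]
  · rw [if_neg c, if_neg (fun h0 => c (h.1 h0))]

/-- the symbol of `-1` -/
lemma uu_eq {q : ℕ} (hq : q.Prime) (hq2 : q ≠ 2) : uu q = ra q (-1) := by
  have hqo : q % 2 = 1 := hq.eq_two_or_odd.resolve_left hq2
  unfold uu ra
  rw [ch_odd hq2, jacobiSym.at_neg_one (Nat.odd_iff.2 hqo)]
  have h5 : q % 4 = 1 ∨ q % 4 = 3 := by omega
  rcases h5 with h5 | h5
  · rw [ZMod.χ₄_nat_one_mod_four h5, if_neg (by omega), if_pos rfl]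
  · rw [ZMod.χ₄_nat_three_mod_four h5, if_pos h5, if_neg (by decide)]

lemma pdr_odd {r s : ZMod 2} {p : ℕ} (h : p ≠ 2) : pdr r s p = sgp p := by
  unfold pdr sgp
  rw [if_neg h]

lemma pdr_two {r s : ZMod 2} : pdr r s 2 = if s = 0 then 2 else if r = 0 then -1 else -2 := by
  unfold pdr
  rw [if_pos rfl]

lemma gd_pdr {r s : ZMod 2} {p q : ℕ} (hp : p.Prime) (hq : q.Prime) (hpq : p ≠ q) :
    Gd q (pdr r s p) := by
  by_cases h : q = 2
  · subst h
    rw [gd_two, pdr_odd hpq]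
    exact sgp_mod hp hpq
  · rw [gd_odd h]
    by_cases h2 : p = 2
    · subst h2
      rw [pdr_two]
      intro h3
      have h4 : (q : ℤ) ∣ ((2 : ℕ) : ℤ) := by
        split_ifs at h3 with h5 h6
        · exact h3
        · rw [dvd_neg] at h3
          exact h3.trans (one_dvd _)
        · rw [dvd_neg] at h3
          exact h3
      exact h ((Nat.prime_dvd_prime_iff_eq hq Nat.prime_two).1 (by exact_mod_cast h4))
    · rw [pdr_odd h2, dvd_sgp]
      intro h3
      exact hpq ((Nat.prime_dvd_prime_iff_eq hq hp).1 h3).symm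

/-- **the symbols** -/
theorem sy_eq {r s : ZMod 2} {p q : ℕ} (hp : p.Prime) (hq : q.Prime) (hpq : p ≠ q)
    (hrs : p = 2 → r ≠ 0 ∨ s ≠ 0) : sy r s q p = ra q (pdr r s p) := by
  unfold sy
  by_cases h2 : p = 2
  · subst h2
    have hq2 : q ≠ 2 := fun h => hpq h.symm
    rw [if_pos rfl, pdr_two]
    have hnd : ¬ (q : ℤ) ∣ ((2 : ℕ) : ℤ) := not_dvd_prime Nat.prime_two hq hpq
    rw [nr_eq hq hq2 hnd, uu_eq hq hq2]
    have e2 : ((2 : ℕ) : ℤ) = 2 := rfl
    rw [e2]
    rw [e2] at hnd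
    have h01 : ∀ c : ZMod 2, c = 0 ∨ c = 1 := by decide
    have hr := hrs rfl
    rcases h01 r with hr0 | hr0 <;> rcases h01 s with hs0 | hs0
    · rw [hr0, hs0] at hr
      simp at hr
    · rw [hr0, hs0, if_neg (by decide), if_pos rfl]
      ring
    · rw [hr0, hs0, if_pos rfl]
      ring
    · rw [hr0, hs0, if_neg (by decide), if_neg (by decide)]
      have e : (-2 : ℤ) = 2 * (-1) := by norm_num
      have g1 : Gd q (-1) := by
        rw [gd_odd hq2, dvd_neg]
        have := gd_one hq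
        rwa [gd_odd hq2] at this
      rw [e, ra_mul hq ((gd_odd hq2 2).2 hnd) g1]
      ring
  · rw [if_neg h2, pdr_odd h2, recip_ra hq hp h2, nr_eq hp h2 (not_dvd_prime hq hp hpq.symm)]

end Pool.Agent.N362.SLX
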