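import Pool.Agent.N362.SLX.Ch

/-!
# Project SLX (helper637): the solutions of the linear systems are Selmer classes
-/

set_option autoImplicit false
set_option linter.unusedVariables false

open scoped Classical

namespace Pool.Agent.N362.SLX

open Finset
open Pool.Agent.N875.X15 (sq_cancel)
open Pool.Agent.N916.GB (Po Vt sy)
open Pool.Agent.Y703.CQ (nr)
open Pool.Agent.N637.P21 (Cls)
open Pool.Agent.TH841.SH (SelG LocC)
open Pool.Agent.N637.SLX

lemma z01 : ∀ c : ZMod 2, c = 0 ∨ c = 1 := by decide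

lemma zcc : ∀ c : ZMod 2, c + c = 0 := by decide

section

variable {t : Bool} {r s : ZMod 2} {S : Finset ℕ} {m : ℤ}

lemma mem_Vt {p : ℕ} : p ∈ Vt t S ↔ (p = 2 ∧ t = true) ∨ p ∈ S := by
  unfold Vt
  split_ifs with h <;> simp [h]

lemma pr_Vt (h : Ty t r s S m) {p : ℕ} (hp : p ∈ Vt t S) : p.Prime := by
  rcases mem_Vt.1 hp with ⟨rfl, -⟩ | h1
  · exact Nat.prime_two
  · exact (h.po p h1).1

lemma two_notMem (h : Ty t r s S m) : 2 ∉ S := fun h1 => (h.po 2 h1).2 rfl

lemma rs_ne (h : Ty t r s S m) {p : ℕ} (hp : p ∈ Vt t S) (hp2 : p = 2) : r ≠ 0 ∨ s ≠ 0 := by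
  subst hp2
  rcases mem_Vt.1 hp with ⟨-, ht⟩ | h1
  · rcases h.ty with ⟨h2, -⟩ | ⟨-, h2, h3, -⟩ | ⟨-, h2, h3, -⟩ | ⟨-, h2, h3, -⟩
    · rw [ht] at h2
      exact absurd h2 (by decide)
    · right
      rw [h3]
      decide
    · left
      rw [h2]
      decide
    · left
      rw [h2]
      decide
  · exact absurd h1 (two_notMem h)

lemma prod_sgp_abs (T : Finset ℕ) : (∏ p ∈ T, sgp p).natAbs = ∏ p ∈ T, p := by
  classical
  induction T using Finset.induction_on with
  | empty => rfl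
  | insert a T ha ih => rw [Finset.prod_insert ha, Finset.prod_insert ha, Int.natAbs_mul, ih, sgp_abs]

/-- the product of the prime discriminants -/
lemma prod_Vt (h : Ty t r s S m) : ∏ p ∈ Vt t S, pdr r s p = m := by
  have h2 := two_notMem h
  have e1 : ∏ p ∈ S, pdr r s p = ∏ p ∈ S, sgp p :=
    Finset.prod_congr rfl fun p hp => pdr_odd fun h3 => h2 (h3 ▸ hp)
  have e2 : (∏ p ∈ S, sgp p) % 4 = 1 := by
    rw [← gd_two]
    refine gd_prod Nat.prime_two _ _ fun p hp => ?_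
    rw [gd_two]
    exact sgp_mod (h.po p hp).1 (h.po p hp).2
  have e3 := prod_sgp_abs S
  have e4 : t = true → ∏ p ∈ Vt t S, pdr r s p = pdr r s 2 * ∏ p ∈ S, sgp p := by
    intro ht
    unfold Vt
    rw [if_pos ht, Finset.prod_insert h2, e1]
  rcases h.ty with ⟨ht, hs, hm, h4⟩ | ⟨ht, hr, hs, hm, h4⟩ | ⟨ht, hr, hs, hm, h4⟩ |
    ⟨ht, hr, hs, hm, h4⟩
  · have e5 : Vt t S = S := by
      unfold Vt
      rw [ht]
      exact if_neg (by decide)
    rw [e5, e1]
    omega
  · rw [e4 ht, pdr_two, hs, hr, if_neg (by decide), if_pos rfl]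
    omega
  · rw [e4 ht, pdr_two, hs, hr, if_neg (by decide), if_neg (by decide)]
    omega
  · rw [e4 ht, pdr_two, hs, hr, if_pos rfl]
    omega

/-- the odd primes dividing `m` -/
lemma dvd_m (h : Ty t r s S m) {p : ℕ} (hp : p.Prime) (hp2 : p ≠ 2) : (p : ℤ) ∣ m ↔ p ∈ Vt t S := by
  rw [← prod_Vt h]
  constructor
  · intro h1
    obtain ⟨q, hq, h2⟩ := (Nat.prime_iff_prime_int.1 hp).exists_mem_finset_dvd h1
    by_contra hcon
    have h3 : Gd p (pdr r s q) := gd_pdr (pr_Vt h hq) hp (fun h4 => hcon (h4 ▸ hq))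
    rw [gd_odd hp2] at h3
    exact h3 h2
  · intro h1
    refine Dvd.dvd.trans ?_ (Finset.dvd_prod_of_mem _ h1)
    rw [pdr_odd hp2, dvd_sgp]

lemma four_iff (h : Ty t r s S m) : m % 4 = 1 ↔ t = false := by
  rcases h.ty with ⟨ht, hs, hm, h4⟩ | ⟨ht, hr, hs, hm, h4⟩ | ⟨ht, hr, hs, hm, h4⟩ |
    ⟨ht, hr, hs, hm, h4⟩
  · exact ⟨fun _ => ht, fun _ => h4⟩
  · rw [ht]
    simp
    omega
  · rw [ht]
    simp
    omega
  · rw [ht]
    simp
    omega

/-- the symbols -/
lemma NS_eq (h : Ty t r s S m) {p q : {x : ℕ // x ∈ Vt t S}} (hpq : p ≠ q) :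
    NS t r s S q p = ra q.1 (pdr r s p.1) :=
  sy_eq (pr_Vt h p.2) (pr_Vt h q.2) (fun h1 => hpq (Subtype.ext h1)) (rs_ne h p.2)

/-- the symbols, reversed -/
lemma NS_eq' (h : Ty t r s S m) {p q : {x : ℕ // x ∈ Vt t S}} (hpq : p ≠ q) (hp2 : p.1 ≠ 2) :
    NS t r s S q p = ra p.1 ((q.1 : ℕ) : ℤ) := by
  rw [NS_eq h hpq, pdr_odd hp2, recip_ra (pr_Vt h q.2) (pr_Vt h p.2) hp2]

lemma gdp (h : Ty t r s S m) {p q : {x : ℕ // x ∈ Vt t S}} (hpq : p ≠ q) :
    Gd q.1 (pdr r s p.1) :=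
  gd_pdr (pr_Vt h p.2) (pr_Vt h q.2) fun h1 => hpq (Subtype.ext h1)

lemma gdn (h : Ty t r s S m) {p q : {x : ℕ // x ∈ Vt t S}} (hpq : p ≠ q) (hq2 : q.1 ≠ 2) :
    Gd q.1 ((p.1 : ℕ) : ℤ) := by
  rw [gd_odd hq2]
  exact not_dvd_prime (pr_Vt h p.2) (pr_Vt h q.2) fun h1 => hpq (Subtype.ext h1)

/-- the constant -/
def cc (b : ZMod 2) : ℤ := if b = 1 then -7 else 1

lemma dX_eq (x : {x : ℕ // x ∈ Vt t S} → ZMod 2) (j : ZMod 2) : dX t r s S x j =
    (∏ p ∈ univ.filter (fun p => x p = 1), pdr r s p.1) * cc j := by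
  unfold dX cc
  rw [Finset.prod_filter]

lemma dY_eq (y : {x : ℕ // x ∈ Vt t S} → ZMod 2) : dY t S y =
    ∏ p ∈ univ.filter (fun p => y p = 1), ((p.1 : ℕ) : ℤ) := by
  unfold dY
  rw [Finset.prod_filter]

lemma prod_all (h : Ty t r s S m) : ∏ p : {x : ℕ // x ∈ Vt t S}, pdr r s p.1 = m := by
  rw [← prod_Vt h]
  exact Finset.prod_coe_sort (Vt t S) (fun p => pdr r s p)

lemma prod_AC (h : Ty t r s S m) (x : {x : ℕ // x ∈ Vt t S} → ZMod 2) :
    (∏ p ∈ univ.filter (fun p => x p = 1), pdr r s p.1) *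
      (∏ p ∈ univ.filter (fun p => ¬ x p = 1), pdr r s p.1) = m := by
  rw [Finset.prod_filter_mul_prod_filter_not, prod_all h]

lemma m_ne (h : Ty t r s S m) : m ≠ 0 := h.cl.neg.ne

lemma DA_ne (h : Ty t r s S m) (x : {x : ℕ // x ∈ Vt t S} → ZMod 2) :
    (∏ p ∈ univ.filter (fun p => x p = 1), pdr r s p.1) ≠ 0 ∧
      (∏ p ∈ univ.filter (fun p => ¬ x p = 1), pdr r s p.1) ≠ 0 := by
  have h1 := prod_AC h x
  have h2 := m_ne h
  rw [← h1] at h2
  exact ⟨left_ne_zero_of_mul h2, right_ne_zero_of_mul h2⟩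

lemma cc_ne (b : ZMod 2) : cc b ≠ 0 := by
  unfold cc
  split_ifs <;> norm_num

lemma cc_zero : cc 0 = 1 := if_neg (by decide)

lemma cc_one : cc 1 = -7 := if_pos rfl

/-- the row of the first system, `x p = 0` -/
lemma rw_zero (h : Ty t r s S m) (x : {x : ℕ // x ∈ Vt t S} → ZMod 2) (p : {x : ℕ // x ∈ Vt t S})
    (hx : x p = 0) : ∑ q, (x q + x p) * NS t r s S p q =
      ra p.1 (∏ q ∈ univ.filter (fun q => x q = 1), pdr r s q.1) := by
  have hne : ∀ q, x q = 1 → q ≠ p := by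
    rintro q hq rfl
    rw [hx] at hq
    exact absurd hq (by decide)
  rw [← ra_prod (pr_Vt h p.2) _ _ (fun q hq => gdp h (hne q (Finset.mem_filter.1 hq).2)),
    Finset.sum_filter]
  refine Finset.sum_congr rfl fun q _ => ?_
  rcases z01 (x q) with hq | hq
  · rw [hq, hx, if_neg (by decide), add_zero, zero_mul]
  · rw [hq, hx, if_pos rfl, add_zero, one_mul, NS_eq h (hne q hq)]

/-- the row of the first system, `x p = 1` -/
lemma rw_one (h : Ty t r s S m) (x : {x : ℕ // x ∈ Vt t S} → ZMod 2) (p : {x : ℕ // x ∈ Vt t S})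
    (hx : x p = 1) : ∑ q, (x q + x p) * NS t r s S p q =
      ra p.1 (∏ q ∈ univ.filter (fun q => ¬ x q = 1), pdr r s q.1) := by
  have hne : ∀ q, ¬ x q = 1 → q ≠ p := by
    rintro q hq rfl
    exact hq hx
  rw [← ra_prod (pr_Vt h p.2) _ _ (fun q hq => gdp h (hne q (Finset.mem_filter.1 hq).2)),
    Finset.sum_filter]
  refine Finset.sum_congr rfl fun q _ => ?_
  rcases z01 (x q) with hq | hq
  · rw [hq, hx, if_pos (by decide), zero_add, one_mul, NS_eq h (hne q (by rw [hq]; decide))]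
  · rw [hq, hx, if_neg (by decide), zcc, zero_mul]

/-- the row of the second system, `y p = 0` -/
lemma lk_zero (h : Ty t r s S m) (y : {x : ℕ // x ∈ Vt t S} → ZMod 2) (p : {x : ℕ // x ∈ Vt t S})
    (hp2 : p.1 ≠ 2) (hy : y p = 0) : ∑ q, (y q * NS t r s S q p + y p * NS t r s S p q) =
      ra p.1 (∏ q ∈ univ.filter (fun q => y q = 1), ((q.1 : ℕ) : ℤ)) := by
  have hne : ∀ q, y q = 1 → q ≠ p := by
    rintro q hq rfl
    rw [hy] at hq
    exact absurd hq (by decide)
  rw [← ra_prod (pr_Vt h p.2) _ _ (fun q hq => gdn h (hne q (Finset.mem_filter.1 hq).2) hp2),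
    Finset.sum_filter]
  refine Finset.sum_congr rfl fun q _ => ?_
  rcases z01 (y q) with hq | hq
  · rw [hq, hy, if_neg (by decide), zero_mul, zero_mul, add_zero]
  · rw [hq, hy, if_pos rfl, zero_mul, add_zero, one_mul, NS_eq' h (hne q hq).symm hp2]

/-- the row of the second system, `y p = 1` -/
lemma lk_one (h : Ty t r s S m) (y : {x : ℕ // x ∈ Vt t S} → ZMod 2) (p : {x : ℕ // x ∈ Vt t S})
    (hp2 : p.1 ≠ 2) (hy : y p = 1) : ∑ q, (y q * NS t r s S q p + y p * NS t r s S p q) =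
      ra p.1 (∏ q ∈ (univ.filter (fun q => y q = 1)).erase p, ((q.1 : ℕ) : ℤ)) +
      ra p.1 (∏ q ∈ univ.erase p, pdr r s q.1) := by
  rw [← ra_prod (pr_Vt h p.2) _ _ (fun q hq => gdn h (Finset.ne_of_mem_erase hq) hp2),
    ← ra_prod (pr_Vt h p.2) _ _ (fun q hq => gdp h (Finset.ne_of_mem_erase hq))]
  have e1 : ∀ q, y q * NS t r s S q p + y p * NS t r s S p q =
      (if q ∈ (univ.filter (fun q => y q = 1)).erase p then ra p.1 ((q.1 : ℕ) : ℤ) else 0) +
      (if q ∈ univ.erase p then ra p.1 (pdr r s q.1) else 0) := by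
    intro q
    by_cases hqp : q = p
    · subst hqp
      rw [if_neg (Finset.notMem_erase _ _), if_neg (Finset.notMem_erase _ _), hy, one_mul, zcc,
        add_zero]
    · rw [if_pos (Finset.mem_erase.2 ⟨hqp, Finset.mem_univ _⟩), hy, one_mul, NS_eq h hqp,
        NS_eq' h (Ne.symm hqp) hp2]
      congr 1
      rcases z01 (y q) with hq | hq
      · rw [hq, zero_mul, if_neg]
        intro h1
        have h2 := (Finset.mem_filter.1 (Finset.mem_erase.1 h1).2).2
        rw [hq] at h2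
        exact absurd h2 (by decide)
      · rw [hq, one_mul, if_pos (Finset.mem_erase.2 ⟨hqp, Finset.mem_filter.2 ⟨Finset.mem_univ _, hq⟩⟩)]
  rw [Finset.sum_congr rfl fun q _ => e1 q, Finset.sum_add_distrib, Finset.sum_ite_mem,
    Finset.sum_ite_mem, Finset.univ_inter, Finset.univ_inter]

/-- `d₂` at the odd primes dividing `m` -/
lemma second (h : Ty t r s S m) (y : {x : ℕ // x ∈ Vt t S} → ZMod 2) (hl : IsLk (NS t r s S) y)
    (p : {x : ℕ // x ∈ Vt t S}) (hp2 : p.1 ≠ 2) [hp : Fact p.1.Prime] :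
    (y p = 0 ∧ IsSquare ((dY t S y : ℤ) : ℚ_[p.1])) ∨
    (y p = 1 ∧ IsSquare (((dY t S y : ℤ) : ℚ_[p.1]) * (-m))) := by
  have h0 := hl p
  rw [dY_eq]
  rcases z01 (y p) with hy | hy
  · left
    refine ⟨hy, ?_⟩
    rw [lk_zero h y p hp2 hy] at h0
    refine (ra_iff ?_).1 h0
    refine gd_prod hp.out _ _ fun q hq => gdn h ?_ hp2
    rintro rfl
    have := (Finset.mem_filter.1 hq).2
    rw [hy] at this
    exact absurd this (by decide)
  · right
    refine ⟨hy, ?_⟩
    have hpm : p ∈ univ.filter (fun q => y q = 1) := Finset.mem_filter.2 ⟨Finset.mem_univ _, hy⟩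
    have g1 : Gd p.1 (∏ q ∈ (univ.filter (fun q => y q = 1)).erase p, ((q.1 : ℕ) : ℤ)) :=
      gd_prod hp.out _ _ fun q hq => gdn h (Finset.ne_of_mem_erase hq) hp2
    have g2 : Gd p.1 (∏ q ∈ univ.erase p, pdr r s q.1) :=
      gd_prod hp.out _ _ fun q hq => gdp h (Finset.ne_of_mem_erase hq)
    rw [lk_one h y p hp2 hy, ← ra_mul hp.out g1 g2, ra_iff (gd_mul hp.out g1 g2)] at h0
    have e1 := Finset.mul_prod_erase univ (fun q : {x : ℕ // x ∈ Vt t S} => pdr r s q.1)
      (Finset.mem_univ p)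
    rw [prod_all h] at e1
    have e2 := Finset.mul_prod_erase (univ.filter (fun q => y q = 1))
      (fun q : {x : ℕ // x ∈ Vt t S} => ((q.1 : ℕ) : ℤ)) hpm
    rw [← e2]
    have hneg : IsSquare (((-(sgp p.1 * p.1) : ℤ)) : ℚ_[p.1]) := by
      unfold sgp
      split_ifs with h6
      · have h7 : IsSquare ((-1 : ℤ) : ℚ_[p.1]) := by
          refine sq_of_zmod hp2 ?_ ?_
          · intro h8
            have h9 : p.1 ∣ 1 := by
              rw [dvd_neg] at h8
              exact_mod_cast h8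
            exact hp.out.one_lt.ne' (Nat.dvd_one.1 h9)
          · push_cast
            rw [ZMod.exists_sq_eq_neg_one_iff]
            omega
        have e3 : (((-((p.1 : ℤ) * p.1) : ℤ)) : ℚ_[p.1]) = ((-1 : ℤ) : ℚ_[p.1]) * (p.1 * p.1) := by
          push_cast
          ring
        rw [e3]
        exact h7.mul (IsSquare.mul_self _)
      · have e3 : (((-(-(p.1 : ℤ) * p.1) : ℤ)) : ℚ_[p.1]) = (p.1 : ℚ_[p.1]) * p.1 := by
          push_cast
          ring
        rw [e3]
        exact IsSquare.mul_self _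
    have e4 : ((((p.1 : ℕ) : ℤ) * ∏ q ∈ (univ.filter (fun q => y q = 1)).erase p, ((q.1 : ℕ) : ℤ)) *
        (-m)) = (-(sgp p.1 * p.1)) * ((∏ q ∈ (univ.filter (fun q => y q = 1)).erase p,
          ((q.1 : ℕ) : ℤ)) * ∏ q ∈ univ.erase p, pdr r s q.1) := by
      conv_lhs => rw [← e1]
      rw [pdr_odd hp2]
      ring
    have e5 := hneg.mul h0
    rw [← Int.cast_mul, ← e4, Int.cast_mul, Int.cast_neg] at e5
    exact e5

lemma eS_ne {p : ℕ} (hp : p.Prime) (hp7 : p ≠ 7) : eS t r s S p = ra p (-7) := by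
  have h7 : Nat.Prime 7 := by norm_num
  unfold eS
  rw [if_neg hp7, nr_eq h7 (by norm_num) (not_dvd_prime hp h7 hp7), ← recip_ra hp h7 (by norm_num)]
  rfl

lemma gd7 {p : ℕ} (hp : p.Prime) (hp7 : p ≠ 7) : Gd p (-7) := by
  have h7 : Nat.Prime 7 := by norm_num
  by_cases h2 : p = 2
  · subst h2
    rw [gd_two]
    norm_num
  · rw [gd_odd h2, dvd_neg]
    have := not_dvd_prime h7 hp hp7.symm
    exact_mod_cast this

lemma gdcc {p : ℕ} (hp : p.Prime) (hp7 : p ≠ 7) (b : ZMod 2) : Gd p (cc b) := by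
  unfold cc
  split_ifs
  · exact gd7 hp hp7
  · exact gd_one hp

lemma ra_cc {p : ℕ} (b : ZMod 2) : ra p (cc b) = ra p (-7) * b := by
  rcases z01 b with h | h
  · rw [h, cc_zero, ra_one, mul_zero]
  · rw [h, cc_one, mul_one]

/-- `d₁` at the primes different from `7` -/
lemma first (h : Ty t r s S m) (x y : {x : ℕ // x ∈ Vt t S} → ZMod 2)
    (hr : Rw (NS t r s S) (ES t r s S) x y)
    (p : {x : ℕ // x ∈ Vt t S}) (hp7 : p.1 ≠ 7) [hp : Fact p.1.Prime] :
    IsSquare ((((dX t r s S x (∑ q, ES t r s S q * y q)) * cc (y p) : ℤ)) : ℚ_[p.1]) ∨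
    IsSquare ((((dX t r s S x (∑ q, ES t r s S q * y q)) * m * cc (y p) : ℤ)) : ℚ_[p.1]) := by
  have h0 := hr p
  have he : ES t r s S p = ra p.1 (-7) := eS_ne hp.out hp7
  set j := ∑ q, ES t r s S q * y q with hj
  rw [dX_eq]
  have e1 := prod_AC h x
  rw [he] at h0
  rcases z01 (x p) with hx | hx
  · left
    have g1 : Gd p.1 (∏ q ∈ univ.filter (fun q => x q = 1), pdr r s q.1) := by
      refine gd_prod hp.out _ _ fun q hq => gdp h ?_
      rintro rfl
      have := (Finset.mem_filter.1 hq).2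
      rw [hx] at this
      exact absurd this (by decide)
    rw [rw_zero h x p hx] at h0
    have g2 := gd_mul hp.out g1 (gdcc hp.out hp7 j)
    rw [← ra_iff (gd_mul hp.out g2 (gdcc hp.out hp7 (y p))), ra_mul hp.out g2 (gdcc hp.out hp7 (y p)),
      ra_mul hp.out g1 (gdcc hp.out hp7 j), ra_cc, ra_cc, h0]
    generalize ra p.1 (-7) = e
    generalize y p = a
    generalize j = b
    revert e a b
    decide
  · right
    have g1 : Gd p.1 (∏ q ∈ univ.filter (fun q => ¬ x q = 1), pdr r s q.1) := by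
      refine gd_prod hp.out _ _ fun q hq => gdp h ?_
      rintro rfl
      exact (Finset.mem_filter.1 hq).2 hx
    rw [rw_one h x p hx] at h0
    have g2 := gd_mul hp.out g1 (gdcc hp.out hp7 j)
    have h1 : IsSquare ((((∏ q ∈ univ.filter (fun q => ¬ x q = 1), pdr r s q.1) * cc j * cc (y p) : ℤ)) :
        ℚ_[p.1]) := by
      rw [← ra_iff (gd_mul hp.out g2 (gdcc hp.out hp7 (y p))),
        ra_mul hp.out g2 (gdcc hp.out hp7 (y p)),
        ra_mul hp.out g1 (gdcc hp.out hp7 j), ra_cc, ra_cc, h0]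
      generalize ra p.1 (-7) = e
      generalize y p = a
      generalize j = b
      revert e a b
      decide
    have e2 : (∏ q ∈ univ.filter (fun q => x q = 1), pdr r s q.1) * cc j * m * cc (y p) =
        ((∏ q ∈ univ.filter (fun q => x q = 1), pdr r s q.1) *
          (∏ q ∈ univ.filter (fun q => x q = 1), pdr r s q.1)) *
        ((∏ q ∈ univ.filter (fun q => ¬ x q = 1), pdr r s q.1) * cc j * cc (y p)) := by
      rw [← e1]
      ring
    rw [e2, Int.cast_mul, Int.cast_mul]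
    exact (IsSquare.mul_self _).mul h1

/-- the sum over the other primes -/
lemma eS_seven (h : Ty t r s S m) (p : {x : ℕ // x ∈ Vt t S}) (hp7 : p.1 = 7) :
    ES t r s S p = ∑ q ∈ univ.erase p, NS t r s S p q := by
  unfold ES eS
  rw [if_pos hp7]
  have e1 : ∑ q ∈ univ.erase p, NS t r s S p q =
      ∑ q : {x : ℕ // x ∈ Vt t S}, if q.1 = 7 then 0 else sy r s 7 q.1 := by
    rw [← Finset.add_sum_erase univ _ (Finset.mem_univ p), if_pos hp7, zero_add]
    refine Finset.sum_congr rfl fun q hq => ?_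
    rw [if_neg (fun h1 => Finset.ne_of_mem_erase hq (Subtype.ext (h1.trans hp7.symm)))]
    unfold NS
    rw [hp7]
  rw [e1, Finset.sum_coe_sort (Vt t S) (fun q => if q = 7 then 0 else sy r s 7 q)]
  have h7 : 7 ∈ Vt t S := hp7 ▸ p.2
  rw [← Finset.add_sum_erase (Vt t S) _ h7, if_pos rfl, zero_add]
  refine Finset.sum_congr rfl fun q hq => ?_
  rw [if_neg (Finset.ne_of_mem_erase hq)]

/-- if `7 ∣ m` then `j = 0` -/
lemma j_seven (h : Ty t r s S m) (y : {x : ℕ // x ∈ Vt t S} → ZMod 2) (hl : IsLk (NS t r s S) y)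
    (p : {x : ℕ // x ∈ Vt t S}) (hp7 : p.1 = 7) : ∑ q, ES t r s S q * y q = 0 := by
  have h7p : Nat.Prime 7 := by norm_num
  have h0 := hl p
  rw [← Finset.add_sum_erase univ _ (Finset.mem_univ p), zcc, zero_add, Finset.sum_add_distrib,
    ← Finset.mul_sum, ← eS_seven h p hp7] at h0
  rw [← Finset.add_sum_erase univ _ (Finset.mem_univ p), ← h0, add_comm, mul_comm (ES t r s S p)]
  congr 1
  refine Finset.sum_congr rfl fun q hq => ?_
  have hqp := Finset.ne_of_mem_erase hq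
  have hq7 : q.1 ≠ 7 := fun h1 => hqp (Subtype.ext (h1.trans hp7.symm))
  rw [mul_comm, NS_eq' h hqp.symm (by rw [hp7]; norm_num)]
  unfold ES eS
  rw [if_neg hq7, nr_eq h7p (by norm_num) (not_dvd_prime (pr_Vt h q.2) h7p hq7), hp7]

/-- if `7` does not divide `m` -/
lemma j_ne_seven (h : Ty t r s S m) (y : {x : ℕ // x ∈ Vt t S} → ZMod 2)
    (h7 : 7 ∉ Vt t S) : ∑ q, ES t r s S q * y q = ra 7 (dY t S y) ∧ Gd 7 (dY t S y) := by
  have h7p : Nat.Prime 7 := by norm_num
  have hne : ∀ q : {x : ℕ // x ∈ Vt t S}, q.1 ≠ 7 := fun q h1 => h7 (h1 ▸ q.2)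
  have g : ∀ q : {x : ℕ // x ∈ Vt t S}, Gd 7 ((q.1 : ℕ) : ℤ) := by
    intro q
    rw [gd_odd (by norm_num)]
    exact not_dvd_prime (pr_Vt h q.2) h7p (hne q)
  rw [dY_eq]
  refine ⟨?_, gd_prod h7p _ _ fun q _ => g q⟩
  rw [← ra_prod h7p _ _ (fun q _ => g q), Finset.sum_filter]
  refine Finset.sum_congr rfl fun q _ => ?_
  have e : ES t r s S q = ra 7 ((q.1 : ℕ) : ℤ) := by
    unfold ES eS
    rw [if_neg (hne q), nr_eq h7p (by norm_num) (not_dvd_prime (pr_Vt h q.2) h7p (hne q))]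
  rw [e]
  rcases z01 (y q) with hq | hq
  · rw [hq, if_neg (by decide), mul_zero]
  · rw [hq, if_pos rfl, mul_one]

/-- `d₁` at `7` -/
lemma first7 (h : Ty t r s S m) (x y : {x : ℕ // x ∈ Vt t S} → ZMod 2)
    (hl : IsLk (NS t r s S) y) (hr : Rw (NS t r s S) (ES t r s S) x y)
    (p : {x : ℕ // x ∈ Vt t S}) (hp7 : p.1 = 7) [hp : Fact p.1.Prime] :
    IsSquare ((((dX t r s S x (∑ q, ES t r s S q * y q)) * cc (y p) : ℤ)) : ℚ_[p.1]) ∨
    IsSquare ((((dX t r s S x (∑ q, ES t r s S q * y q)) * m * cc (y p) : ℤ)) : ℚ_[p.1]) := by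
  have h0 := hr p
  have hj := j_seven h y hl p hp7
  have he := eS_seven h p hp7
  rw [hj, mul_zero, add_zero] at h0
  rw [hj, dX_eq, cc_zero, mul_one]
  have e1 := prod_AC h x
  have e2 := Finset.mul_prod_erase univ (fun q : {x : ℕ // x ∈ Vt t S} => pdr r s q.1)
    (Finset.mem_univ p)
  rw [prod_all h] at e2
  have e3 : pdr r s p.1 = -7 := by
    rw [hp7]
    rfl
  rw [e3] at e2
  have g2 : Gd p.1 (∏ q ∈ univ.erase p, pdr r s q.1) :=
    gd_prod hp.out _ _ fun q hq => gdp h (Finset.ne_of_mem_erase hq)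
  have he' : ES t r s S p = ra p.1 (∏ q ∈ univ.erase p, pdr r s q.1) := by
    rw [he, ← ra_prod (pr_Vt h p.2) _ _ (fun q hq => gdp h (Finset.ne_of_mem_erase hq))]
    exact Finset.sum_congr rfl fun q hq => NS_eq h (Finset.ne_of_mem_erase hq)
  rw [he'] at h0
  set M := ∏ q ∈ univ.erase p, pdr r s q.1 with hM
  rcases z01 (x p) with hx | hx
  · have g1 : Gd p.1 (∏ q ∈ univ.filter (fun q => x q = 1), pdr r s q.1) := by
      refine gd_prod hp.out _ _ fun q hq => gdp h ?_
      rintro rfl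
      have := (Finset.mem_filter.1 hq).2
      rw [hx] at this
      exact absurd this (by decide)
    rw [rw_zero h x p hx] at h0
    rcases z01 (y p) with hy | hy
    · left
      rw [hy, cc_zero, mul_one, ← ra_iff g1, h0, hy, mul_zero]
    · right
      have h1 : IsSquare ((((∏ q ∈ univ.filter (fun q => x q = 1), pdr r s q.1) * M : ℤ)) :
          ℚ_[p.1]) := by
        rw [← ra_iff (gd_mul hp.out g1 g2), ra_mul hp.out g1 g2, h0, hy, mul_one]
        exact zcc _
      have e4 : (∏ q ∈ univ.filter (fun q => x q = 1), pdr r s q.1) * m * cc (y p) =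
          (7 * 7) * ((∏ q ∈ univ.filter (fun q => x q = 1), pdr r s q.1) * M) := by
        rw [hy, cc_one, ← e2]
        ring
      rw [e4, Int.cast_mul, Int.cast_mul]
      exact (IsSquare.mul_self _).mul h1
  · have g1 : Gd p.1 (∏ q ∈ univ.filter (fun q => ¬ x q = 1), pdr r s q.1) := by
      refine gd_prod hp.out _ _ fun q hq => gdp h ?_
      rintro rfl
      exact (Finset.mem_filter.1 hq).2 hx
    rw [rw_one h x p hx] at h0
    rcases z01 (y p) with hy | hy
    · right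
      have h1 : IsSquare ((((∏ q ∈ univ.filter (fun q => ¬ x q = 1), pdr r s q.1) : ℤ)) :
          ℚ_[p.1]) := by
        rw [← ra_iff g1, h0, hy, mul_zero]
      have e4 : (∏ q ∈ univ.filter (fun q => x q = 1), pdr r s q.1) * m * cc (y p) =
          ((∏ q ∈ univ.filter (fun q => x q = 1), pdr r s q.1) *
            (∏ q ∈ univ.filter (fun q => x q = 1), pdr r s q.1)) *
          (∏ q ∈ univ.filter (fun q => ¬ x q = 1), pdr r s q.1) := by
        rw [hy, cc_zero, ← e1]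
        ring
      rw [e4, Int.cast_mul, Int.cast_mul]
      exact (IsSquare.mul_self _).mul h1
    · left
      have h1 : IsSquare ((((∏ q ∈ univ.filter (fun q => ¬ x q = 1), pdr r s q.1) * M : ℤ)) :
          ℚ_[p.1]) := by
        rw [← ra_iff (gd_mul hp.out g1 g2), ra_mul hp.out g1 g2, h0, hy, mul_one]
        exact zcc _
      have h2 : (((∏ q ∈ univ.filter (fun q => ¬ x q = 1), pdr r s q.1) * M : ℤ)) ≠ 0 := by
        refine mul_ne_zero (DA_ne h x).2 ?_
        intro h3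
        rw [h3, mul_zero] at e2
        exact m_ne h e2.symm
      have h2' : ((((∏ q ∈ univ.filter (fun q => ¬ x q = 1), pdr r s q.1) * M : ℤ)) : ℚ_[p.1]) ≠ 0 := by
        exact_mod_cast h2
      refine sq_cancel h2' h1 ?_
      have e4 : ((∏ q ∈ univ.filter (fun q => ¬ x q = 1), pdr r s q.1) * M) *
          ((∏ q ∈ univ.filter (fun q => x q = 1), pdr r s q.1) * cc (y p)) = (7 * M) * (7 * M) := by
        rw [hy, cc_one]
        have e5 : (∏ q ∈ univ.filter (fun q => ¬ x q = 1), pdr r s q.1) * M *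
          ((∏ q ∈ univ.filter (fun q => x q = 1), pdr r s q.1) * -7) =
          ((∏ q ∈ univ.filter (fun q => x q = 1), pdr r s q.1) *
            (∏ q ∈ univ.filter (fun q => ¬ x q = 1), pdr r s q.1)) * (-7 * M) := by ring
        rw [e5, e1, ← e2]
        ring
      rw [← Int.cast_mul, e4, Int.cast_mul]
      exact IsSquare.mul_self _

/-- `d₁` at the ramified primes -/
lemma firstA (h : Ty t r s S m) (x y : {x : ℕ // x ∈ Vt t S} → ZMod 2)
    (hl : IsLk (NS t r s S) y) (hr : Rw (NS t r s S) (ES t r s S) x y)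
    (p : {x : ℕ // x ∈ Vt t S}) [hp : Fact p.1.Prime] :
    IsSquare ((((dX t r s S x (∑ q, ES t r s S q * y q)) * cc (y p) : ℤ)) : ℚ_[p.1]) ∨
    IsSquare ((((dX t r s S x (∑ q, ES t r s S q * y q)) * m * cc (y p) : ℤ)) : ℚ_[p.1]) := by
  by_cases hp7 : p.1 = 7
  · exact first7 h x y hl hr p hp7
  · exact first h x y hr p hp7

lemma dY_pos (h : Ty t r s S m) (y : {x : ℕ // x ∈ Vt t S} → ZMod 2) : 0 < dY t S y := by
  rw [dY_eq]
  exact Finset.prod_pos fun p _ => by exact_mod_cast (pr_Vt h p.2).pos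

lemma dX_ne (h : Ty t r s S m) (x : {x : ℕ // x ∈ Vt t S} → ZMod 2) (j : ZMod 2) :
    dX t r s S x j ≠ 0 := by
  rw [dX_eq]
  exact mul_ne_zero (DA_ne h x).1 (cc_ne j)

lemma sqf_dY (h : Ty t r s S m) (y : {x : ℕ // x ∈ Vt t S} → ZMod 2) : Squarefree (dY t S y) := by
  rw [dY_eq]
  refine Finset.squarefree_prod_of_pairwise_isCoprime ?_ ?_
  · intro p _ q _ hpq
    have h1 := (Nat.coprime_primes (pr_Vt h p.2) (pr_Vt h q.2)).2 (fun h1 => hpq (Subtype.ext h1))
    exact (Nat.isCoprime_iff_coprime.2 h1).isRelPrime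
  · intro p _
    exact (Nat.prime_iff_prime_int.1 (pr_Vt h p.2)).squarefree

lemma dY_dvd (h : Ty t r s S m) (y : {x : ℕ // x ∈ Vt t S} → ZMod 2) : dY t S y ∣ 2 * m := by
  rw [dY_eq]
  refine (Finset.prod_dvd_prod_of_subset _ _ _ (Finset.filter_subset _ _)).trans ?_
  rw [Finset.prod_coe_sort (Vt t S) (fun p => ((p : ℕ) : ℤ))]
  by_cases ht : t = true
  · unfold Vt
    rw [if_pos ht, Finset.prod_insert (two_notMem h)]
    refine mul_dvd_mul_left _ ?_
    have e : ((∏ p ∈ S, p : ℕ) : ℤ) = ∏ p ∈ S, ((p : ℕ) : ℤ) := by push_cast; rfl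
    rw [← e]
    rcases h.ty with ⟨-, -, hm, -⟩ | ⟨-, -, -, hm, -⟩ | ⟨-, -, -, hm, -⟩ | ⟨-, -, -, hm, -⟩
    · exact ⟨-1, by rw [hm]; ring⟩
    · exact ⟨-1, by rw [hm]; ring⟩
    · exact ⟨-2, by rw [hm]; ring⟩
    · exact ⟨-2, by rw [hm]; ring⟩
  · unfold Vt
    rw [if_neg ht]
    have e : ((∏ p ∈ S, p : ℕ) : ℤ) = ∏ p ∈ S, ((p : ℕ) : ℤ) := by push_cast; rfl
    rw [← e]
    rcases h.ty with ⟨-, -, hm, -⟩ | ⟨-, -, -, hm, -⟩ | ⟨-, -, -, hm, -⟩ | ⟨-, -, -, hm, -⟩
    · exact ⟨-2, by rw [hm]; ring⟩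
    · exact ⟨-2, by rw [hm]; ring⟩
    · exact ⟨-4, by rw [hm]; ring⟩
    · exact ⟨-4, by rw [hm]; ring⟩

lemma sqf_dX (h : Ty t r s S m) (x y : {x : ℕ // x ∈ Vt t S} → ZMod 2)
    (hl : IsLk (NS t r s S) y) : Squarefree (dX t r s S x (∑ q, ES t r s S q * y q)) := by
  have h1 := prod_AC h x
  have h2 : Squarefree (∏ p ∈ univ.filter (fun p => x p = 1), pdr r s p.1) :=
    h.cl.sqf.squarefree_of_dvd ⟨_, h1.symm⟩
  have hP7 : Prime (7 : ℤ) := by norm_num
  rw [dX_eq]
  by_cases h7 : 7 ∈ Vt t S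
  · rw [j_seven h y hl ⟨7, h7⟩ rfl, cc_zero, mul_one]
    exact h2
  · have h3 : ¬ (7 : ℤ) ∣ m := by
      have := (dvd_m h (p := 7) (by norm_num) (by norm_num)).not.2 h7
      exact_mod_cast this
    rcases z01 (∑ q, ES t r s S q * y q) with hj | hj
    · rw [hj, cc_zero, mul_one]
      exact h2
    · rw [hj, cc_one]
      have h4 : IsCoprime (∏ p ∈ univ.filter (fun p => x p = 1), pdr r s p.1) (-7 : ℤ) := by
        rw [IsCoprime.neg_right_iff, isCoprime_comm]
        refine hP7.coprime_iff_not_dvd.2 fun h5 => h3 (h5.trans ⟨_, h1.symm⟩)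
      refine (squarefree_mul_iff).2 ⟨h4.isRelPrime, h2, ?_⟩
      have h5 : Prime (-7 : ℤ) := hP7.neg
      exact h5.squarefree

end

/-- **The solutions of the linear systems are Selmer classes.** -/
theorem t_SUF : S_LT → S_LG → S_LA → S_LB → S_HR → S_SUF := by
  intro hLT hLG hLA hLB hHR t r s S m h x y hl hr
  set d1 := dX t r s S x (∑ q, ES t r s S q * y q) with hd1
  set d2 := dY t S y with hd2
  have n1 : d1 ≠ 0 := dX_ne h x _
  have n2 : 0 < d2 := dY_pos h y
  have q1 : Squarefree d1 := sqf_dX h x y hl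
  have q2 : Squarefree d2 := sqf_dY h y
  refine ⟨q1, q2, (hLA m h.cl d1 d2 q1 q2).2 n2, ?_⟩
  intro p hp
  by_cases hpV : p ∈ Vt t S
  · by_cases hp2 : p = 2
    · -- the place `2`
      subst hp2
      have hm4 : m % 4 ≠ 1 := by
        rw [Ne, four_iff h]
        intro ht
        rw [mem_Vt, ht] at hpV
        rcases hpV with h1 | h1
        · exact absurd h1.2 (by decide)
        · exact two_notMem h h1
      refine hLB m h.cl hm4 d1 d2 q1 q2 ?_ ?_
      · have h1 := firstA h x y hl hr ⟨2, hpV⟩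
        rw [← hd1] at h1
        have h2 : IsSquare (((cc (y ⟨2, hpV⟩) : ℤ)) : ℚ_[2]) := by
          refine sq_int ?_
          unfold cc
          split_ifs <;> norm_num
        have h3 : (((cc (y ⟨2, hpV⟩) : ℤ)) : ℚ_[2]) ≠ 0 := by
          exact_mod_cast cc_ne _
        rcases h1 with h1 | h1
        · left
          rw [Int.cast_mul, mul_comm] at h1
          exact sq_cancel h3 h2 h1
        · right
          rw [Int.cast_mul, mul_comm, Int.cast_mul] at h1
          exact sq_cancel h3 h2 h1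
      · refine hHR m h.cl.sqf h.cl.neg d2 q2 n2 (dY_dvd h y) ?_ (fun h1 => absurd h1 hm4)
        intro q hq hq2 hqm
        have hqV := (dvd_m h hq.out hq2).1 hqm
        rcases second h y hl ⟨q, hqV⟩ hq2 with h1 | h1
        · exact Or.inl h1.2
        · exact Or.inr h1.2
    · -- the odd primes dividing `m`
      refine (hLT ℚ_[p] m (m_ne h) ?_).1 d1 d2 n1 n2.ne' ?_
      · obtain ⟨X, Y, hY, hXY, a1, a2, a3⟩ := Pool.Agent.TH841.SH.pt_pad p 0 (9 * m) (-7 * m)
        push_cast at hXY a1 a2 a3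
        rw [sub_zero] at hXY a1
        have e : X - -7 * (m : ℚ_[p]) = X + 7 * m := by ring
        rw [e] at hXY a3
        exact ⟨X, Y, hY, hXY, a1, a2, a3⟩
      · have h1 := firstA h x y hl hr ⟨p, hpV⟩
        rw [← hd1] at h1
        rcases second h y hl ⟨p, hpV⟩ hp2 with ⟨h2, h3⟩ | ⟨h2, h3⟩
        · left
          rw [h2, cc_zero, mul_one, mul_one] at h1
          refine ⟨h3, ?_⟩
          rcases h1 with h1 | h1
          · exact Or.inl h1
          · right
            rw [Int.cast_mul] at h1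
            exact h1
        · right
          rw [h2, cc_one] at h1
          refine ⟨h3, ?_⟩
          rcases h1 with h1 | h1
          · left
            have e : ((d1 * -7 : ℤ) : ℚ_[p]) = (d1 : ℚ_[p]) * (-7) := by push_cast; ring
            rw [e] at h1
            exact h1
          · right
            have e : ((d1 * m * -7 : ℤ) : ℚ_[p]) = (d1 : ℚ_[p]) * (-7 * m) := by push_cast; ring
            rw [e] at h1
            exact h1
  · -- the unramified primes
    have hg : ∀ q : {x : ℕ // x ∈ Vt t S}, q.1 ≠ p := fun q h1 => hpV (h1 ▸ q.2)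
    have g1 : Gd p (∏ q ∈ univ.filter (fun q => x q = 1), pdr r s q.1) :=
      gd_prod hp.out _ _ fun q _ => gd_pdr (pr_Vt h q.2) hp.out (hg q)
    by_cases hp2 : p = 2
    · subst hp2
      have ht : t = false := by
        rw [mem_Vt] at hpV
        push Not at hpV
        have := hpV.1 rfl
        simpa using this
      refine (hLA m h.cl d1 d2 q1 q2).1 ((four_iff h).2 ht) ?_ ?_
      · rw [hd1, dX_eq, ← gd_two]
        exact gd_mul Nat.prime_two g1 (gdcc Nat.prime_two (by norm_num) _)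
      · have h1 : ¬ ((2 : ℕ) : ℤ) ∣ d2 := by
          rw [hd2, dY_eq]
          intro h1
          obtain ⟨q, hq, h2⟩ := (Nat.prime_iff_prime_int.1 Nat.prime_two).exists_mem_finset_dvd h1
          exact not_dvd_prime (pr_Vt h q.2) Nat.prime_two (hg q) h2
        omega
    · have hpm : ¬ (p : ℤ) ∣ m := (dvd_m h hp.out hp2).not.2 hpV
      have g2 : ¬ (p : ℤ) ∣ d2 := by
        rw [hd2, dY_eq]
        intro h1
        obtain ⟨q, hq, h2⟩ := (Nat.prime_iff_prime_int.1 hp.out).exists_mem_finset_dvd h1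
        exact not_dvd_prime (pr_Vt h q.2) hp.out (hg q) h2
      refine hLG m h.cl p hp2 hpm d1 d2 q1 q2 ?_ g2 ?_
      · intro hp7
        rw [hd1, dX_eq, ← gd_odd hp2]
        exact gd_mul hp.out g1 (gdcc hp.out hp7 _)
      · intro hp7
        subst hp7
        obtain ⟨k1, k2⟩ := j_ne_seven h y hpV
        rw [← hd2] at k1 k2
        rw [hd1, dX_eq, k1]
        rw [gd_odd hp2] at g1
        have h7p : Nat.Prime 7 := by norm_num
        have hc : ch 7 d2 = jacobiSym d2 7 := ch_odd hp2 d2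
        rw [← hc]
        unfold ra
        rcases ch_pm h7p k2 with h1 | h1
        · rw [h1, if_pos rfl, cc_zero, mul_one]
          constructor
          · intro h2
            exact absurd h2 (by exact_mod_cast g1)
          · intro h2
            norm_num at h2
        · rw [h1, if_neg (by norm_num), cc_one]
          constructor
          · intro _
            rfl
          · intro _
            exact ⟨-(∏ q ∈ univ.filter (fun q => x q = 1), pdr r s q.1), by ring⟩

end Pool.Agent.N362.SLX
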